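import Mathlib

/-!
# MP_aa954a_co, Q2: the unit bar visibility number can exceed `⌈(n-1)/3⌉`

The complete graph on four vertices has unit bar visibility number exactly `2`.
-/

namespace Pool.Agent.Results.MP_aa954a_co.CompleteGraphFour

/-- the closed horizontal unit segment with left end point `p` -/
def seg (p : ℝ × ℝ) : Set (ℝ × ℝ) := {z | p.1 ≤ z.1 ∧ z.1 ≤ p.1 + 1 ∧ z.2 = p.2}

/-- Some non-degenerate axis-parallel rectangle `[a,b] × [c,d]` has its bottom side in one of the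
bars `p`, `q`, its top side in the other one, and meets no other bar of the family `S`. -/
def Sees (S : Set (ℝ × ℝ)) (p q : ℝ × ℝ) : Prop :=
  ∃ a b c d : ℝ, a < b ∧ c < d ∧
    ((Set.Icc a b ×ˢ {c} ⊆ seg p ∧ Set.Icc a b ×ˢ {d} ⊆ seg q) ∨
      (Set.Icc a b ×ˢ {c} ⊆ seg q ∧ Set.Icc a b ×ˢ {d} ⊆ seg p)) ∧
    ∀ r ∈ S, r ≠ p → r ≠ q → Disjoint (seg r) (Set.Icc a b ×ˢ Set.Icc c d)

/-- `B` assigns to every vertex a finite set of at most `t` unit bars (given by their left end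
points); all bars are pairwise disjoint, and distinct vertices are adjacent in `G` iff some bar of
the first sees some bar of the second. -/
structure IsRep {V : Type*} (G : SimpleGraph V) (t : ℕ) (B : V → Finset (ℝ × ℝ)) : Prop where
  card_le : ∀ v, (B v).card ≤ t
  disj : ∀ u v p q, p ∈ B u → q ∈ B v → (u, p) ≠ (v, q) → Disjoint (seg p) (seg q)
  adj : ∀ u v, u ≠ v →
    (G.Adj u v ↔ ∃ p ∈ B u, ∃ q ∈ B v, Sees (⋃ w, (B w : Set (ℝ × ℝ))) p q)

/-- the unit bar visibility number -/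
noncomputable def ub {V : Type*} (G : SimpleGraph V) : ℕ := sInf {t | ∃ B, IsRep G t B}

theorem mem_seg {p z : ℝ × ℝ} : z ∈ seg p ↔ p.1 ≤ z.1 ∧ z.1 ≤ p.1 + 1 ∧ z.2 = p.2 := Iff.rfl

/-- what visibility gives -/
theorem sees_spec {S : Set (ℝ × ℝ)} {p q : ℝ × ℝ} (h : Sees S p q) :
    ∃ a b : ℝ, a < b ∧ p.2 ≠ q.2 ∧ p.1 ≤ a ∧ b ≤ p.1 + 1 ∧ q.1 ≤ a ∧ b ≤ q.1 + 1 ∧
      ∀ r ∈ S, r ≠ p → r ≠ q → min p.2 q.2 ≤ r.2 → r.2 ≤ max p.2 q.2 →
        b < r.1 ∨ r.1 + 1 < a := by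
  obtain ⟨a, b, c, d, hab, hcd, hpq, hr⟩ := h
  have ha : a ∈ Set.Icc a b := Set.left_mem_Icc.2 hab.le
  have hb : b ∈ Set.Icc a b := Set.right_mem_Icc.2 hab.le
  have key : ∀ r : ℝ × ℝ, Disjoint (seg r) (Set.Icc a b ×ˢ Set.Icc c d) → c ≤ r.2 → r.2 ≤ d →
      b < r.1 ∨ r.1 + 1 < a := by
    intro r hd h1 h2
    by_contra hcon
    push Not at hcon
    obtain ⟨h3, h4⟩ := hcon
    rw [Set.disjoint_left] at hd
    refine hd (a := (max a r.1, r.2)) ⟨le_max_right _ _, max_le h4 (by linarith), rfl⟩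
      ⟨⟨le_max_left _ _, max_le hab.le h3⟩, h1, h2⟩
  rcases hpq with ⟨h1, h2⟩ | ⟨h1, h2⟩
  · have e1 := h1 (Set.mk_mem_prod ha (Set.mem_singleton c))
    have e2 := h1 (Set.mk_mem_prod hb (Set.mem_singleton c))
    have e3 := h2 (Set.mk_mem_prod ha (Set.mem_singleton d))
    have e4 := h2 (Set.mk_mem_prod hb (Set.mem_singleton d))
    rw [mem_seg] at e1 e2 e3 e4
    simp only at e1 e2 e3 e4
    have hlt : p.2 < q.2 := by rw [← e1.2.2, ← e3.2.2]; exact hcd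
    refine ⟨a, b, hab, hlt.ne, e1.1, e2.2.1, e3.1, e4.2.1, ?_⟩
    intro r hrS hrp hrq h5 h6
    refine key r (hr r hrS hrp hrq) ?_ ?_
    · rw [min_eq_left hlt.le, ← e1.2.2] at h5; exact h5
    · rw [max_eq_right hlt.le, ← e3.2.2] at h6; exact h6
  · have e1 := h1 (Set.mk_mem_prod ha (Set.mem_singleton c))
    have e2 := h1 (Set.mk_mem_prod hb (Set.mem_singleton c))
    have e3 := h2 (Set.mk_mem_prod ha (Set.mem_singleton d))
    have e4 := h2 (Set.mk_mem_prod hb (Set.mem_singleton d))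
    rw [mem_seg] at e1 e2 e3 e4
    simp only at e1 e2 e3 e4
    have hlt : q.2 < p.2 := by rw [← e1.2.2, ← e3.2.2]; exact hcd
    refine ⟨a, b, hab, hlt.ne', e3.1, e4.2.1, e1.1, e2.2.1, ?_⟩
    intro r hrS hrp hrq h5 h6
    refine key r (hr r hrS hrp hrq) ?_ ?_
    · rw [min_eq_right hlt.le, ← e1.2.2] at h5; exact h5
    · rw [max_eq_left hlt.le, ← e3.2.2] at h6; exact h6

/-- four unit bars at different heights do not all see each other -/
theorem four_bars (S : Set (ℝ × ℝ)) (x : Fin 4 → ℝ × ℝ) (hS : ∀ i, x i ∈ S)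
    (hs : ∀ i j, i ≠ j → Sees S (x i) (x j)) : False := by
  have hne : ∀ i j, i ≠ j → (x i).2 ≠ (x j).2 := by
    intro i j hij
    obtain ⟨a, b, -, h, -⟩ := sees_spec (hs i j hij)
    exact h
  have hinj : Function.Injective (fun i => (x i).2) := by
    intro i j h
    by_contra hij
    exact hne i j hij h
  -- order the bars by height
  have h4 : (Finset.univ.image (fun i => (x i).2)).card = 4 := by
    rw [Finset.card_image_of_injective _ hinj]; rfl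
  let e := Finset.orderEmbOfFin (Finset.univ.image (fun i => (x i).2)) h4
  have hex : ∀ k : Fin 4, ∃ i : Fin 4, (x i).2 = e k := by
    intro k
    have := Finset.orderEmbOfFin_mem (Finset.univ.image (fun i => (x i).2)) h4 k
    rw [Finset.mem_image] at this
    obtain ⟨i, -, hi⟩ := this
    exact ⟨i, hi⟩
  choose s hs' using hex
  have hlt : ∀ k l : Fin 4, k < l → (x (s k)).2 < (x (s l)).2 := by
    intro k l hkl
    rw [hs', hs']
    exact e.strictMono hkl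
  have hsne : ∀ k l : Fin 4, k < l → s k ≠ s l := by
    intro k l hkl h
    have := hlt k l hkl
    rw [h] at this
    exact lt_irrefl _ this
  have hxne : ∀ k l : Fin 4, k < l → x (s k) ≠ x (s l) := by
    intro k l hkl h
    have := hlt k l hkl
    rw [h] at this
    exact lt_irrefl _ this
  have h01 := hlt 0 1 (by decide)
  have h12 := hlt 1 2 (by decide)
  have h23 := hlt 2 3 (by decide)
  -- all bars overlap
  obtain ⟨a12, b12, hab12, -, c1, c2, c3, c4, -⟩ := sees_spec (hs (s 1) (s 2) (hsne 1 2 (by decide)))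
  -- bars 0 and 2 past bar 1
  obtain ⟨a, b, hab, -, p1, p2, p3, p4, p5⟩ := sees_spec (hs (s 0) (s 2) (hsne 0 2 (by decide)))
  have q1 := p5 (x (s 1)) (hS _) (hxne 0 1 (by decide)).symm (hxne 1 2 (by decide))
    (by rw [min_eq_left (h01.trans h12).le]; exact h01.le)
    (by rw [max_eq_right (h01.trans h12).le]; exact h12.le)
  -- bars 1 and 3 past bar 2
  obtain ⟨a', b', hab', -, p1', p2', p3', p4', p5'⟩ :=
    sees_spec (hs (s 1) (s 3) (hsne 1 3 (by decide)))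
  have q2 := p5' (x (s 2)) (hS _) (hxne 1 2 (by decide)).symm (hxne 2 3 (by decide))
    (by rw [min_eq_left (h12.trans h23).le]; exact h12.le)
    (by rw [max_eq_right (h12.trans h23).le]; exact h23.le)
  -- bars 0 and 3 past bars 1 and 2
  obtain ⟨a'', b'', hab'', -, p1'', p2'', p3'', p4'', p5''⟩ :=
    sees_spec (hs (s 0) (s 3) (hsne 0 3 (by decide)))
  have h03 := (h01.trans h12).trans h23
  have q3 := p5'' (x (s 1)) (hS _) (hxne 0 1 (by decide)).symm (hxne 1 3 (by decide))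
    (by rw [min_eq_left h03.le]; exact h01.le)
    (by rw [max_eq_right h03.le]; exact (h12.trans h23).le)
  have q4 := p5'' (x (s 2)) (hS _) (hxne 0 2 (by decide)).symm (hxne 2 3 (by decide))
    (by rw [min_eq_left h03.le]; exact (h01.trans h12).le)
    (by rw [max_eq_right h03.le]; exact h23.le)
  rcases q1 with q1 | q1 <;> rcases q2 with q2 | q2 <;> rcases q3 with q3 | q3 <;>
    rcases q4 with q4 | q4 <;> linarith

/-- `K_4` has no representation with one bar per vertex -/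
theorem not_one : ¬ ∃ B, IsRep (⊤ : SimpleGraph (Fin 4)) 1 B := by
  rintro ⟨B, hB⟩
  have hmem : ∀ v, ∃ p, B v = {p} := by
    intro v
    have h1 := hB.card_le v
    obtain ⟨w, hw⟩ := exists_ne v
    obtain ⟨p, hp, -⟩ := (hB.adj v w hw.symm).1 (by simpa using hw.symm)
    have h2 : 0 < (B v).card := Finset.card_pos.2 ⟨p, hp⟩
    exact Finset.card_eq_one.1 (by omega)
  choose x hx using hmem
  refine four_bars (⋃ w, (B w : Set (ℝ × ℝ))) x ?_ ?_
  · intro i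
    exact Set.mem_iUnion.2 ⟨i, by rw [hx i]; simp⟩
  · intro i j hij
    obtain ⟨p, hp, q, hq, h⟩ := (hB.adj i j hij).1 (by simpa using hij)
    rw [hx i, Finset.mem_singleton] at hp
    rw [hx j, Finset.mem_singleton] at hq
    rw [hp, hq] at h
    exact h

/-- heights in the second stack -/
def h2 : Fin 4 → ℕ := ![2, 0, 3, 1]

/-- the bars of a representation of `K_4` with two bars per vertex: two stacks of four bars -/
noncomputable def B4 (v : Fin 4) : Finset (ℝ × ℝ) := {(0, ((v : ℕ) : ℝ)), (2, ((h2 v : ℕ) : ℝ))}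

theorem two : IsRep (⊤ : SimpleGraph (Fin 4)) 2 B4 := by
  have hform : ∀ v p, p ∈ B4 v → (p = (0, ((v : ℕ) : ℝ)) ∨ p = (2, ((h2 v : ℕ) : ℝ))) := by
    intro v p hp
    simpa [B4] using hp
  have hinj : Function.Injective h2 := by decide
  refine ⟨fun v => Finset.card_le_two, ?_, ?_⟩
  · intro u v p q hp hq hne
    rw [Set.disjoint_left]
    rintro ⟨z, y⟩ ⟨e1, e2, e3⟩ ⟨e4, e5, e6⟩
    simp only at e1 e2 e3 e4 e5 e6
    rcases hform u p hp with rfl | rfl <;> rcases hform v q hq with rfl | rfl <;>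
      simp only at e1 e2 e3 e4 e5 e6
    · have : (u : ℕ) = (v : ℕ) := by exact_mod_cast e3.symm.trans e6
      exact hne (by rw [Fin.ext this])
    · linarith
    · linarith
    · have : h2 u = h2 v := by exact_mod_cast e3.symm.trans e6
      exact hne (by rw [hinj this])
  · intro u v huv
    refine ⟨fun _ => ?_, fun _ => by simpa using huv⟩
    -- a general visibility lemma inside the stacks
    have hvis1 : ∀ i j : Fin 4, (j : ℕ) = (i : ℕ) + 1 →
        Sees (⋃ w, (B4 w : Set (ℝ × ℝ))) (0, ((i : ℕ) : ℝ)) (0, ((j : ℕ) : ℝ)) ∧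
        Sees (⋃ w, (B4 w : Set (ℝ × ℝ))) (0, ((j : ℕ) : ℝ)) (0, ((i : ℕ) : ℝ)) := by
      intro i j hij
      have hij' : ((j : ℕ) : ℝ) = ((i : ℕ) : ℝ) + 1 := by rw [hij]; push_cast; ring
      have hbot : Set.Icc (0 : ℝ) 1 ×ˢ {((i : ℕ) : ℝ)} ⊆ seg (0, ((i : ℕ) : ℝ)) := by
        rintro ⟨z, y⟩ ⟨⟨f1, f2⟩, f3⟩
        exact ⟨f1, by simpa using f2, f3⟩
      have htop : Set.Icc (0 : ℝ) 1 ×ˢ {((j : ℕ) : ℝ)} ⊆ seg (0, ((j : ℕ) : ℝ)) := by
        rintro ⟨z, y⟩ ⟨⟨f1, f2⟩, f3⟩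
        exact ⟨f1, by simpa using f2, f3⟩
      have hrest : ∀ r ∈ (⋃ w, (B4 w : Set (ℝ × ℝ))), r ≠ (0, ((i : ℕ) : ℝ)) →
          r ≠ (0, ((j : ℕ) : ℝ)) →
          Disjoint (seg r) (Set.Icc (0 : ℝ) 1 ×ˢ Set.Icc ((i : ℕ) : ℝ) ((j : ℕ) : ℝ)) := by
        intro r hr h1 h3
        obtain ⟨w, hw⟩ := Set.mem_iUnion.1 hr
        rw [Set.disjoint_left]
        rintro ⟨z, y⟩ ⟨e1, e2, e3⟩ ⟨⟨f1, f2⟩, f3, f4⟩
        simp only at e1 e2 e3 f1 f2 f3 f4
        rcases hform w r hw with rfl | rfl <;> simp only at e1 e2 e3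
        · rw [e3] at f3 f4
          have g1 : (i : ℕ) ≤ (w : ℕ) := by exact_mod_cast f3
          have g2 : (w : ℕ) ≤ (j : ℕ) := by exact_mod_cast f4
          have g3 : (w : ℕ) ≠ i := fun h => h1 (by rw [h])
          have g4 : (w : ℕ) ≠ j := fun h => h3 (by rw [h])
          omega
        · linarith
      have hlt : ((i : ℕ) : ℝ) < ((j : ℕ) : ℝ) := by rw [hij']; linarith
      exact ⟨⟨0, 1, _, _, zero_lt_one, hlt, Or.inl ⟨hbot, htop⟩, hrest⟩,
        ⟨0, 1, _, _, zero_lt_one, hlt, Or.inr ⟨hbot, htop⟩, fun r hr h1 h3 => hrest r hr h3 h1⟩⟩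
    have hvis2 : ∀ i j : Fin 4, h2 j = h2 i + 1 →
        Sees (⋃ w, (B4 w : Set (ℝ × ℝ))) (2, ((h2 i : ℕ) : ℝ)) (2, ((h2 j : ℕ) : ℝ)) ∧
        Sees (⋃ w, (B4 w : Set (ℝ × ℝ))) (2, ((h2 j : ℕ) : ℝ)) (2, ((h2 i : ℕ) : ℝ)) := by
      intro i j hij
      have hij' : ((h2 j : ℕ) : ℝ) = ((h2 i : ℕ) : ℝ) + 1 := by rw [hij]; push_cast; ring
      have hbot : Set.Icc (2 : ℝ) 3 ×ˢ {((h2 i : ℕ) : ℝ)} ⊆ seg (2, ((h2 i : ℕ) : ℝ)) := by
        rintro ⟨z, y⟩ ⟨⟨f1, f2⟩, f3⟩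
        exact ⟨f1, by simp only at f2 ⊢; linarith, f3⟩
      have htop : Set.Icc (2 : ℝ) 3 ×ˢ {((h2 j : ℕ) : ℝ)} ⊆ seg (2, ((h2 j : ℕ) : ℝ)) := by
        rintro ⟨z, y⟩ ⟨⟨f1, f2⟩, f3⟩
        exact ⟨f1, by simp only at f2 ⊢; linarith, f3⟩
      have hrest : ∀ r ∈ (⋃ w, (B4 w : Set (ℝ × ℝ))), r ≠ (2, ((h2 i : ℕ) : ℝ)) →
          r ≠ (2, ((h2 j : ℕ) : ℝ)) →
          Disjoint (seg r) (Set.Icc (2 : ℝ) 3 ×ˢ Set.Icc ((h2 i : ℕ) : ℝ) ((h2 j : ℕ) : ℝ)) := by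
        intro r hr h1 h3
        obtain ⟨w, hw⟩ := Set.mem_iUnion.1 hr
        rw [Set.disjoint_left]
        rintro ⟨z, y⟩ ⟨e1, e2, e3⟩ ⟨⟨f1, f2⟩, f3, f4⟩
        simp only at e1 e2 e3 f1 f2 f3 f4
        rcases hform w r hw with rfl | rfl <;> simp only at e1 e2 e3
        · linarith
        · rw [e3] at f3 f4
          have g1 : h2 i ≤ h2 w := by exact_mod_cast f3
          have g2 : h2 w ≤ h2 j := by exact_mod_cast f4
          have g3 : h2 w ≠ h2 i := fun h => h1 (by rw [h])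
          have g4 : h2 w ≠ h2 j := fun h => h3 (by rw [h])
          omega
      have hlt : ((h2 i : ℕ) : ℝ) < ((h2 j : ℕ) : ℝ) := by rw [hij']; linarith
      exact ⟨⟨2, 3, _, _, by norm_num, hlt, Or.inl ⟨hbot, htop⟩, hrest⟩,
        ⟨2, 3, _, _, by norm_num, hlt, Or.inr ⟨hbot, htop⟩, fun r hr h1 h3 => hrest r hr h3 h1⟩⟩
    have hcase : ((v : ℕ) = (u : ℕ) + 1 ∨ (u : ℕ) = (v : ℕ) + 1) ∨
        (h2 v = h2 u + 1 ∨ h2 u = h2 v + 1) := by
      revert u v; decide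
    have m1 : ∀ w : Fin 4, (0, ((w : ℕ) : ℝ)) ∈ B4 w := by intro w; simp [B4]
    have m2 : ∀ w : Fin 4, (2, ((h2 w : ℕ) : ℝ)) ∈ B4 w := by intro w; simp [B4]
    rcases hcase with (h | h) | (h | h)
    · exact ⟨_, m1 u, _, m1 v, (hvis1 u v h).1⟩
    · exact ⟨_, m1 u, _, m1 v, (hvis1 v u h).2⟩
    · exact ⟨_, m2 u, _, m2 v, (hvis2 u v h).1⟩
    · exact ⟨_, m2 u, _, m2 v, (hvis2 v u h).2⟩

/-- **MP_aa954a_co, Q2.** The complete graph on four vertices has a representation with two unit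
bars per vertex and none with one; `ub(K_4) = 2`; hence there are `n` and a graph `G` on `n`
vertices with `ub(G) > ⌈(n-1)/3⌉`. -/
theorem result :
    (∃ B, IsRep (⊤ : SimpleGraph (Fin 4)) 2 B) ∧ (¬ ∃ B, IsRep (⊤ : SimpleGraph (Fin 4)) 1 B) ∧
    ub (⊤ : SimpleGraph (Fin 4)) = 2 ∧
    ∃ (n : ℕ) (G : SimpleGraph (Fin n)), ⌈((n : ℝ) - 1) / 3⌉ < (ub G : ℤ) := by
  have hub : ub (⊤ : SimpleGraph (Fin 4)) = 2 := by
    apply le_antisymm
    · exact Nat.sInf_le ⟨B4, two⟩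
    · by_contra hlt
      have hmem : ub (⊤ : SimpleGraph (Fin 4)) ∈ {t | ∃ B, IsRep (⊤ : SimpleGraph (Fin 4)) t B} :=
        Nat.sInf_mem ⟨2, B4, two⟩
      obtain ⟨B, hB⟩ := hmem
      apply not_one
      exact ⟨B, ⟨fun v => (hB.card_le v).trans (by omega), hB.disj, hB.adj⟩⟩
  refine ⟨⟨B4, two⟩, not_one, hub, 4, ⊤, ?_⟩
  rw [hub]
  have : (((4 : ℕ) : ℝ) - 1) / 3 = ((1 : ℤ) : ℝ) := by norm_num
  rw [this, Int.ceil_intCast]
  norm_num

end Pool.Agent.Results.MP_aa954a_co.CompleteGraphFour
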